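import Mathlib

set_option autoImplicit false

/-!
# Sums of codegrees in graphs without `K_{s,t}`
-/

namespace Pool.Agent.V11278.ZC

open Finset

/-- Functions with one coordinate in a small set determined by the others. -/
theorem card_dep {V : Type} [Fintype V] [DecidableEq V] (k : ℕ) (b : Fin k)
    (g : (Fin k → V) → Finset V) (hg : ∀ f f' : Fin k → V, (∀ i, i ≠ b → f i = f' i) → g f = g f')
    (m : ℕ) (hm : ∀ f, (g f).card ≤ m) :
    (univ.filter (fun f : Fin k → V => f b ∈ g f)).card ≤ m * (Fintype.card V) ^ (k - 1) := by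
  classical
  set F := univ.filter (fun f : Fin k → V => f b ∈ g f) with hF
  let r : (Fin k → V) → ({i : Fin k // i ≠ b} → V) := fun f i => f i.1
  have h1 : F.card ≤ m * (F.image r).card := by
    apply Finset.card_le_mul_card_image
    intro h hh
    obtain ⟨f0, hf0, rfl⟩ := Finset.mem_image.1 hh
    refine le_trans ?_ (hm f0)
    refine Finset.card_le_card_of_injOn (fun f => f b) ?_ ?_
    · intro f hf
      rw [Finset.mem_coe, Finset.mem_filter] at hf
      obtain ⟨hf1, hf2⟩ := hf
      have h3 : g f = g f0 := hg f f0 (fun i hi => congrFun hf2 ⟨i, hi⟩)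
      rw [Finset.mem_coe, ← h3]
      exact (Finset.mem_filter.1 hf1).2
    · intro f hf f' hf' hff
      rw [Finset.mem_coe, Finset.mem_filter] at hf hf'
      funext i
      by_cases hi : i = b
      · subst hi; exact hff
      · have := congrFun (hf.2.trans hf'.2.symm) ⟨i, hi⟩
        exact this
  refine h1.trans (Nat.mul_le_mul_left _ ?_)
  refine (Finset.card_le_univ _).trans ?_
  rw [Fintype.card_fun]
  have : Fintype.card {i : Fin k // i ≠ b} = k - 1 := by
    rw [Fintype.card_subtype_compl]
    simp
  rw [this]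

/-- `E w` is a family of sets of vertices such that any `k` distinct elements of `E w` outside
of the `j`-set of the first one lie in fewer than `t` sets. -/
theorem sum_pow_le {V : Type} [Fintype V] [DecidableEq V] (k j t : ℕ) (hk : 1 ≤ k)
    (E : V → Finset V) (J : V → Finset V) (hJ : ∀ v, (J v).card ≤ j)
    (h : ∀ f : Fin k → V, Function.Injective f → (∀ i, f i ∉ J (f ⟨0, hk⟩)) →
      (univ.filter (fun w => ∀ i, f i ∈ E w)).card ≤ t)
    (hself : ∀ w, ∀ v ∈ E w, v ∉ J v) :
    ∑ w, (E w).card ^ k ≤ (t + (k + j) ^ 2) * (Fintype.card V) ^ k := by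
  classical
  set n := Fintype.card V with hn
  -- double counting
  have h1 : ∑ w, (E w).card ^ k =
      ∑ f : Fin k → V, (univ.filter (fun w => ∀ i, f i ∈ E w)).card := by
    have h2 : ∀ w, (E w).card ^ k = (univ.filter (fun f : Fin k → V => ∀ i, f i ∈ E w)).card := by
      intro w
      have : (univ.filter (fun f : Fin k → V => ∀ i, f i ∈ E w)) =
          Fintype.piFinset (fun _ : Fin k => E w) := by
        ext f
        simp [Fintype.mem_piFinset]
      rw [this, Fintype.card_piFinset_const]
    simp_rw [h2]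
    simp_rw [Finset.card_filter]
    exact Finset.sum_comm
  rw [h1]
  -- bad functions
  let g : Fin k → (Fin k → V) → Finset V := fun b f =>
    (univ.erase b).image f ∪ (if b = ⟨0, hk⟩ then ∅ else J (f ⟨0, hk⟩))
  have hgcard : ∀ b f, (g b f).card ≤ k + j := by
    intro b f
    refine (Finset.card_union_le _ _).trans ?_
    refine Nat.add_le_add ?_ ?_
    · refine Finset.card_image_le.trans ?_
      refine (Finset.card_le_univ _).trans ?_
      simp
    · split_ifs
      · simp
      · exact hJ _
  have hgdep : ∀ b, ∀ f f' : Fin k → V, (∀ i, i ≠ b → f i = f' i) → g b f = g b f' := by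
    intro b f f' hff
    have e1 : (univ.erase b).image f = (univ.erase b).image f' := by
      apply Finset.image_congr
      intro i hi
      exact hff i (Finset.ne_of_mem_erase (Finset.mem_coe.1 hi))
    have e2 : (if b = ⟨0, hk⟩ then (∅ : Finset V) else J (f ⟨0, hk⟩)) =
        (if b = ⟨0, hk⟩ then ∅ else J (f' ⟨0, hk⟩)) := by
      split_ifs with hb
      · rfl
      · rw [hff ⟨0, hk⟩ (fun h => hb h.symm)]
    show _ ∪ _ = _ ∪ _
    rw [e1, e2]
  set B := univ.filter (fun f : Fin k → V => ∃ b, f b ∈ g b f) with hB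
  have hBcard : B.card ≤ (k + j) ^ 2 * n ^ (k - 1) := by
    have hsub : B ⊆ univ.biUnion (fun b : Fin k => univ.filter (fun f : Fin k → V => f b ∈ g b f)) := by
      intro f hf
      obtain ⟨b, hb⟩ := (Finset.mem_filter.1 hf).2
      exact Finset.mem_biUnion.2 ⟨b, Finset.mem_univ _, Finset.mem_filter.2 ⟨Finset.mem_univ _, hb⟩⟩
    refine (Finset.card_le_card hsub).trans ?_
    refine Finset.card_biUnion_le.trans ?_
    have : ∀ b ∈ (univ : Finset (Fin k)),
        (univ.filter (fun f : Fin k → V => f b ∈ g b f)).card ≤ (k + j) * n ^ (k - 1) :=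
      fun b _ => card_dep k b (g b) (hgdep b) (k + j) (hgcard b)
    refine (Finset.sum_le_sum this).trans ?_
    rw [Finset.sum_const, Finset.card_univ, Fintype.card_fin, smul_eq_mul, pow_two, ← mul_assoc]
    refine Nat.mul_le_mul_right _ (Nat.mul_le_mul_right _ ?_)
    omega
  -- the good functions
  have hsplit : ∑ f : Fin k → V, (univ.filter (fun w => ∀ i, f i ∈ E w)).card ≤
      ∑ f : Fin k → V, (t + if f ∈ B then n else 0) := by
    apply Finset.sum_le_sum
    intro f _
    by_cases hf : f ∈ B
    · rw [if_pos hf]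
      refine (Finset.card_le_univ _).trans ?_
      omega
    · rw [if_neg hf, add_zero]
      have hf' : ∀ b, f b ∉ g b f := by
        intro b hb
        exact hf (Finset.mem_filter.2 ⟨Finset.mem_univ _, b, hb⟩)
      rcases (univ.filter (fun w => ∀ i, f i ∈ E w)).eq_empty_or_nonempty with he | ⟨w, hw⟩
      · rw [he]; simp
      · have hw' := (Finset.mem_filter.1 hw).2
        apply h f
        · intro a b hab
          by_contra hne
          apply hf' b
          refine Finset.mem_union_left _ (Finset.mem_image.2 ⟨a, ?_, hab⟩)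
          exact Finset.mem_erase.2 ⟨hne, Finset.mem_univ _⟩
        · intro i hi
          by_cases h0 : i = ⟨0, hk⟩
          · subst h0
            exact hself w _ (hw' _) hi
          · apply hf' i
            refine Finset.mem_union_right _ ?_
            rw [if_neg h0]
            exact hi
  refine hsplit.trans ?_
  rw [Finset.sum_add_distrib, Finset.sum_const, Finset.card_univ, Fintype.card_fun,
    Fintype.card_fin, smul_eq_mul, ← Finset.sum_filter, Finset.sum_const, smul_eq_mul]
  have hBf : (univ.filter (fun f : Fin k → V => f ∈ B)) = B := by ext f; simp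
  rw [hBf]
  have h3 : B.card * n ≤ (k + j) ^ 2 * n ^ k := by
    calc B.card * n ≤ ((k + j) ^ 2 * n ^ (k - 1)) * n := Nat.mul_le_mul_right _ hBcard
      _ = (k + j) ^ 2 * n ^ k := by
        rw [mul_assoc, ← pow_succ]
        congr 2
        omega
  calc n ^ k * t + B.card * n ≤ n ^ k * t + (k + j) ^ 2 * n ^ k := Nat.add_le_add_left h3 _
    _ = (t + (k + j) ^ 2) * n ^ k := by ring

/-- power mean -/
theorem pow_sum_le {V : Type} [Fintype V] (k : ℕ) (hk : 1 ≤ k) (e : V → ℕ) :
    (∑ w, e w) ^ k ≤ (Fintype.card V) ^ (k - 1) * ∑ w, e w ^ k := by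
  obtain ⟨m, rfl⟩ : ∃ m, k = m + 1 := ⟨k - 1, by omega⟩
  rw [Nat.add_sub_cancel]
  rcases Nat.eq_zero_or_pos (Fintype.card V) with h0 | h0
  · haveI := Fintype.card_eq_zero_iff.1 h0
    simp
  have h := pow_sum_div_card_le_sum_pow (s := (univ : Finset V)) (f := fun w => (e w : ℝ))
    (fun _ _ => by positivity) m
  rw [div_le_iff₀ (by
    have : (0 : ℝ) < (Finset.univ : Finset V).card := by
      rw [Finset.card_univ]; exact_mod_cast h0
    positivity)] at h
  rw [Finset.card_univ] at h
  have h' : ((∑ w, e w : ℕ) : ℝ) ^ (m + 1) ≤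
      ((∑ w, e w ^ (m + 1) : ℕ) : ℝ) * (Fintype.card V : ℝ) ^ m := by
    push_cast
    exact h
  have : (∑ w, e w) ^ (m + 1) ≤ (∑ w, e w ^ (m + 1)) * (Fintype.card V) ^ m := by
    exact_mod_cast h'
  rw [mul_comm]
  exact this

end Pool.Agent.V11278.ZC
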