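import Pool.Agent.V11278.ZC.Point
import Pool.Agent.TH454.BW.Blow

set_option autoImplicit false

/-!
# Codegrees in graphs without `K_{s,t}`: equivalence and sharpness
-/

namespace Pool.Agent.V11278.ZC

open Finset SimpleGraph

/-- Every set of `m ≤ s` vertices has at most `4 t n^{1 - 1/(s-m+1)}` common neighbours. -/
def SmallCodegrees {V : Type} (G : SimpleGraph V) (s t : ℕ) : Prop :=
  ∀ S : Finset V, 1 ≤ S.card → S.card ≤ s →
    (common G S : ℝ) ≤ 4 * t * (Nat.card V : ℝ) ^ (1 - 1 / ((s : ℝ) - S.card + 1))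

theorem equivalence (s t : ℕ) (hs : 2 ≤ s) (ht : 1 ≤ t) :
    (∃ c : ℝ, 0 < c ∧ ∃ n₀ : ℕ, ∀ n : ℕ, n₀ ≤ n → ∃ G : SimpleGraph (Fin n),
      (completeBipartiteGraph (Fin s) (Fin t)).Free G ∧
        c * (n : ℝ) ^ (2 - 1 / (s : ℝ)) ≤ G.edgeSet.ncard) ↔
    (∃ c : ℝ, 0 < c ∧ ∃ n₀ : ℕ, ∀ n : ℕ, n₀ ≤ n → ∃ G : SimpleGraph (Fin n),
      (completeBipartiteGraph (Fin s) (Fin t)).Free G ∧ SmallCodegrees G s t ∧
        c * (n : ℝ) ^ (2 - 1 / (s : ℝ)) ≤ G.edgeSet.ncard) := by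
  constructor
  · rintro ⟨c, hc, n₀, h⟩
    set A : ℝ := 2 * (s : ℝ) ^ 2 + 2 * t * (s : ℝ) ^ 3 with hA
    have hA0 : 0 ≤ A := by positivity
    obtain ⟨n₁, hn₁⟩ := exists_nat_ge ((2 * A / c) ^ 2)
    refine ⟨c / 2, by positivity, max (max n₀ n₁) 1, ?_⟩
    intro n hn
    have hn0 : n₀ ≤ n := le_trans (le_trans (le_max_left _ _) (le_max_left _ _)) hn
    have hn1 : n₁ ≤ n := le_trans (le_trans (le_max_right _ _) (le_max_left _ _)) hn
    have hn2 : 1 ≤ n := le_trans (le_max_right _ _) hn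
    obtain ⟨G, hG, hcard⟩ := h n hn0
    obtain ⟨G', hG', he, hS⟩ := regular G s t hs ht hG
    refine ⟨G', ?_, hS, ?_⟩
    · intro hcon
      exact hG (hcon.trans (IsContained.of_le hG'))
    · rw [Nat.card_eq_fintype_card, Fintype.card_fin] at he
      have hnR : (1 : ℝ) ≤ n := by exact_mod_cast hn2
      have hnpos : (0 : ℝ) < n := by linarith
      have hs2 : (2 : ℝ) ≤ s := by exact_mod_cast hs
      have hs3 : 1 / (s : ℝ) ≤ 1 / 2 := one_div_le_one_div_of_le (by norm_num) hs2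
      have e1 : (n : ℝ) ≤ (n : ℝ) ^ (3 / 2 - 1 / (s : ℝ)) := by
        calc (n : ℝ) = (n : ℝ) ^ (1 : ℝ) := (Real.rpow_one _).symm
          _ ≤ _ := by
            apply Real.rpow_le_rpow_of_exponent_le hnR
            linarith
      have e2 : (n : ℝ) ^ (2 - 1 / (s : ℝ)) =
          (n : ℝ) ^ (3 / 2 - 1 / (s : ℝ)) * (n : ℝ) ^ ((1 : ℝ) / 2) := by
        rw [← Real.rpow_add hnpos]
        congr 1
        ring
      have e3 : 2 * A / c ≤ (n : ℝ) ^ ((1 : ℝ) / 2) := by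
        have h1 : (2 * A / c) ^ 2 ≤ n := hn₁.trans (by exact_mod_cast hn1)
        rw [← Real.sqrt_eq_rpow]
        exact Real.le_sqrt_of_sq_le h1
      have e4 : 2 * A ≤ c * (n : ℝ) ^ ((1 : ℝ) / 2) := by
        rw [div_le_iff₀ hc] at e3
        linarith
      have e5 : 2 * (s : ℝ) ^ 2 * n + 2 * t * (s : ℝ) ^ 3 * (n : ℝ) ^ (3 / 2 - 1 / (s : ℝ)) ≤
          A * (n : ℝ) ^ (3 / 2 - 1 / (s : ℝ)) := by
        rw [hA, add_mul]
        apply add_le_add _ le_rfl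
        apply mul_le_mul_of_nonneg_left e1
        positivity
      have e6 : A * (n : ℝ) ^ (3 / 2 - 1 / (s : ℝ)) ≤ c / 2 * (n : ℝ) ^ (2 - 1 / (s : ℝ)) := by
        rw [e2]
        have h0 : (0 : ℝ) ≤ (n : ℝ) ^ (3 / 2 - 1 / (s : ℝ)) := by positivity
        nlinarith [mul_le_mul_of_nonneg_left e4 h0]
      linarith
  · rintro ⟨c, hc, n₀, h⟩
    refine ⟨c, hc, n₀, fun n hn => ?_⟩
    obtain ⟨G, h1, -, h3⟩ := h n hn
    exact ⟨G, h1, h3⟩

/-- The order of the sums of the codegrees is attained. -/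
theorem attained (s t j l : ℕ) (hj : j + 2 ≤ s) (hjt : j < t)
    (ht : (s - j - 1).factorial < t - j) (hl : 2 ≤ l) :
    ∃ (V : Type) (_ : Finite V) (G : SimpleGraph V) (B : Finset V) (J : V → Finset V),
      Nat.card V = 2 ^ ((s - j) * l) + j ∧
      (completeBipartiteGraph (Fin s) (Fin t)).Free G ∧
      (∀ v ∈ B, (J v).card = j ∧ v ∉ J v) ∧
      ((2 : ℝ) ^ ((s - j) * l)) ^ (2 - 1 / ((s : ℝ) - j)) ≤
        4 * ((∑ v ∈ B, codeg G v (J v) : ℕ) : ℝ) := by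
  classical
  obtain ⟨w, H, -, hfree, -, hcard⟩ :=
    Pool.Agent.TH454.BW.norm_nat (s - j) (t - j) l (by omega) ht hl
  obtain ⟨h1, B, J, h2, h3⟩ := sharp H s t j (by omega) hjt hfree
  refine ⟨_, inferInstance, join H j, B, J, ?_, h1, h2, ?_⟩
  · rw [Nat.card_eq_fintype_card, Fintype.card_sum, Fintype.card_fin]
    simp [Pool.Agent.H607R2.BW.Str]
  · rw [h3]
    rw [Nat.card_coe_set_eq] at hcard
    generalize H.edgeSet.ncard = e at hcard ⊢
    clear h3 h2 h1 hfree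
    obtain ⟨k, hk⟩ : ∃ k, s = k + j := ⟨s - j, by omega⟩
    subst hk
    rw [Nat.add_sub_cancel] at hcard ⊢
    have hk2 : 2 ≤ k := by omega
    have hk0 : (0 : ℝ) < k := by exact_mod_cast (by omega : 0 < k)
    have e0 : (((k + j : ℕ) : ℝ) - j) = k := by rw [Nat.cast_add]; ring
    rw [e0]
    have e1 : ((2 : ℝ) ^ (k * l)) ^ (2 - 1 / (k : ℝ)) = 2 ^ ((k - 1) * l) * 2 ^ (k * l) := by
      rw [← pow_add, ← Real.rpow_natCast, ← Real.rpow_mul (by norm_num), ← Real.rpow_natCast]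
      congr 1
      rw [Nat.cast_add, Nat.cast_mul, Nat.cast_mul, Nat.cast_sub (by omega)]
      field_simp
      push_cast
      ring
    rw [e1]
    have h4 : ((2 : ℝ) ^ ((k - 1) * l) * 2 ^ (k * l)) ≤ 8 * (e : ℝ) := by
      exact_mod_cast hcard
    push_cast
    linarith

end Pool.Agent.V11278.ZC
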