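import Pool.Agent.V11278.ZC.Main

set_option autoImplicit false

/-!
# Sums of codegrees in graphs without `K_{s,t}`: the bound linear in the number of vertices used
-/

namespace Pool.Agent.V11278.ZC

open Finset SimpleGraph

theorem card_dep' {V : Type} [DecidableEq V] (k : ℕ) (b : Fin k) (A : Finset V)
    (g : (Fin k → V) → Finset V) (hg : ∀ f f' : Fin k → V, (∀ i, i ≠ b → f i = f' i) → g f = g f')
    (m : ℕ) (hm : ∀ f, (g f).card ≤ m) :
    ((Fintype.piFinset (fun _ : Fin k => A)).filter (fun f => f b ∈ g f)).card ≤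
      m * A.card ^ (k - 1) := by
  classical
  set F := (Fintype.piFinset (fun _ : Fin k => A)).filter (fun f => f b ∈ g f) with hF
  let r : (Fin k → V) → ({i : Fin k // i ≠ b} → V) := fun f i => f i.1
  have h1 : F.card ≤ m * (F.image r).card := by
    apply Finset.card_le_mul_card_image
    intro h hh
    obtain ⟨f0, hf0, rfl⟩ := Finset.mem_image.1 hh
    refine le_trans ?_ (hm f0)
    refine Finset.card_le_card_of_injOn (fun f => f b) ?_ ?_
    · intro f hf
      rw [Finset.mem_coe, Finset.mem_filter] at hf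
      obtain ⟨hf1, hf2⟩ := hf
      have h3 : g f = g f0 := hg f f0 (fun i hi => congrFun hf2 ⟨i, hi⟩)
      rw [Finset.mem_coe, ← h3]
      exact (Finset.mem_filter.1 hf1).2
    · intro f hf f' hf' hff
      rw [Finset.mem_coe, Finset.mem_filter] at hf hf'
      funext i
      by_cases hi : i = b
      · subst hi; exact hff
      · exact congrFun (hf.2.trans hf'.2.symm) ⟨i, hi⟩
  refine h1.trans (Nat.mul_le_mul_left _ ?_)
  have h2 : F.image r ⊆ Fintype.piFinset (fun _ : {i : Fin k // i ≠ b} => A) := by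
    intro h hh
    obtain ⟨f0, hf0, rfl⟩ := Finset.mem_image.1 hh
    rw [Fintype.mem_piFinset]
    intro i
    exact Fintype.mem_piFinset.1 (Finset.mem_filter.1 hf0).1 i.1
  refine (Finset.card_le_card h2).trans ?_
  rw [Fintype.card_piFinset, Finset.prod_const, Finset.card_univ, Fintype.card_subtype_compl]
  simp

theorem heavy {V : Type} [Fintype V] [DecidableEq V] (k j t : ℕ) (hk : 1 ≤ k)
    (B : Finset V) (E : V → Finset V) (hE : ∀ w, E w ⊆ B) (J : V → Finset V)
    (hJ : ∀ v, (J v).card ≤ j)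
    (h : ∀ f : Fin k → V, Function.Injective f → (∀ i, f i ∉ J (f ⟨0, hk⟩)) →
      (univ.filter (fun w => ∀ i, f i ∈ E w)).card ≤ t)
    (hself : ∀ w, ∀ v ∈ E w, v ∉ J v) :
    ∑ w ∈ univ.filter (fun w => 2 * (k + j) ^ 2 ≤ (E w).card), (E w).card ^ k ≤
      2 * t * B.card ^ k := by
  classical
  -- bad functions
  let g : Fin k → (Fin k → V) → Finset V := fun b f =>
    (univ.erase b).image f ∪ (if b = ⟨0, hk⟩ then ∅ else J (f ⟨0, hk⟩))
  have hgcard : ∀ b f, (g b f).card ≤ k + j := by
    intro b f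
    refine (Finset.card_union_le _ _).trans ?_
    refine Nat.add_le_add ?_ ?_
    · refine Finset.card_image_le.trans ?_
      refine (Finset.card_le_univ _).trans ?_
      simp
    · split_ifs
      · simp
      · exact hJ _
  have hgdep : ∀ b, ∀ f f' : Fin k → V, (∀ i, i ≠ b → f i = f' i) → g b f = g b f' := by
    intro b f f' hff
    have e1 : (univ.erase b).image f = (univ.erase b).image f' := by
      apply Finset.image_congr
      intro i hi
      exact hff i (Finset.ne_of_mem_erase (Finset.mem_coe.1 hi))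
    have e2 : (if b = ⟨0, hk⟩ then (∅ : Finset V) else J (f ⟨0, hk⟩)) =
        (if b = ⟨0, hk⟩ then ∅ else J (f' ⟨0, hk⟩)) := by
      split_ifs with hb
      · rfl
      · rw [hff ⟨0, hk⟩ (fun h => hb h.symm)]
    show _ ∪ _ = _ ∪ _
    rw [e1, e2]
  let bad : (Fin k → V) → Prop := fun f => ∃ b, f b ∈ g b f
  -- for a heavy vertex at least one half of the functions are good
  have hgood : ∀ w ∈ univ.filter (fun w => 2 * (k + j) ^ 2 ≤ (E w).card), (E w).card ^ k ≤
      2 * ((Fintype.piFinset (fun _ : Fin k => E w)).filter (fun f => ¬ bad f)).card := by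
    intro w hw
    have hw2 := (Finset.mem_filter.1 hw).2
    have hbad : ((Fintype.piFinset (fun _ : Fin k => E w)).filter bad).card ≤
        (k + j) ^ 2 * (E w).card ^ (k - 1) := by
      have hsub : (Fintype.piFinset (fun _ : Fin k => E w)).filter bad ⊆
          univ.biUnion (fun b : Fin k =>
            (Fintype.piFinset (fun _ : Fin k => E w)).filter (fun f => f b ∈ g b f)) := by
        intro f hf
        obtain ⟨h1, b, hb⟩ := Finset.mem_filter.1 hf
        exact Finset.mem_biUnion.2 ⟨b, Finset.mem_univ _, Finset.mem_filter.2 ⟨h1, hb⟩⟩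
      refine (Finset.card_le_card hsub).trans ?_
      refine Finset.card_biUnion_le.trans ?_
      refine (Finset.sum_le_sum (fun b _ => card_dep' k b (E w) (g b) (hgdep b) (k + j)
        (hgcard b))).trans ?_
      rw [Finset.sum_const, Finset.card_univ, Fintype.card_fin, smul_eq_mul, pow_two, ← mul_assoc]
      refine Nat.mul_le_mul_right _ (Nat.mul_le_mul_right _ ?_)
      omega
    have htot := Finset.card_filter_add_card_filter_not
      (s := Fintype.piFinset (fun _ : Fin k => E w)) (p := bad)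
    rw [Fintype.card_piFinset_const] at htot
    have hpow : (E w).card ^ k = (E w).card ^ (k - 1) * (E w).card := by
      rw [← pow_succ]; congr 1; omega
    have h3 : 2 * ((k + j) ^ 2 * (E w).card ^ (k - 1)) ≤ (E w).card ^ k := by
      rw [hpow]
      calc 2 * ((k + j) ^ 2 * (E w).card ^ (k - 1)) =
            (E w).card ^ (k - 1) * (2 * (k + j) ^ 2) := by ring
        _ ≤ _ := Nat.mul_le_mul_left _ hw2
    omega
  refine (Finset.sum_le_sum hgood).trans ?_
  rw [← Finset.mul_sum, mul_assoc]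
  refine Nat.mul_le_mul_left 2 ?_
  -- double counting of the good functions
  have h1 : ∑ w ∈ univ.filter (fun w => 2 * (k + j) ^ 2 ≤ (E w).card),
      ((Fintype.piFinset (fun _ : Fin k => E w)).filter (fun f => ¬ bad f)).card ≤
      ∑ w, ((Fintype.piFinset (fun _ : Fin k => E w)).filter (fun f => ¬ bad f)).card :=
    Finset.sum_le_sum_of_subset (Finset.filter_subset _ _)
  refine h1.trans ?_
  have h2 : ∀ w, ((Fintype.piFinset (fun _ : Fin k => E w)).filter (fun f => ¬ bad f)).card =
      ∑ f ∈ (Fintype.piFinset (fun _ : Fin k => B)).filter (fun f => ¬ bad f),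
        if ∀ i, f i ∈ E w then 1 else 0 := by
    intro w
    rw [← Finset.card_filter]
    congr 1
    ext f
    simp only [Finset.mem_filter, Fintype.mem_piFinset]
    constructor
    · rintro ⟨h3, h4⟩
      exact ⟨⟨fun i => hE w (h3 i), h4⟩, h3⟩
    · rintro ⟨⟨-, h4⟩, h3⟩
      exact ⟨h3, h4⟩
  simp_rw [h2]
  rw [Finset.sum_comm]
  have h3 : ∀ f ∈ (Fintype.piFinset (fun _ : Fin k => B)).filter (fun f => ¬ bad f),
      (∑ w, if ∀ i, f i ∈ E w then 1 else 0) ≤ t := by
    intro f hf
    rw [← Finset.card_filter]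
    have hf' : ∀ b, f b ∉ g b f := by
      intro b hb
      exact (Finset.mem_filter.1 hf).2 ⟨b, hb⟩
    rcases (univ.filter (fun w => ∀ i, f i ∈ E w)).eq_empty_or_nonempty with he | ⟨w, hw⟩
    · rw [he]; simp
    · have hw' := (Finset.mem_filter.1 hw).2
      apply h f
      · intro a b hab
        by_contra hne
        apply hf' b
        refine Finset.mem_union_left _ (Finset.mem_image.2 ⟨a, ?_, hab⟩)
        exact Finset.mem_erase.2 ⟨hne, Finset.mem_univ _⟩
      · intro i hi
        by_cases h0 : i = ⟨0, hk⟩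
        · subst h0
          exact hself w _ (hw' _) hi
        · apply hf' i
          refine Finset.mem_union_right _ ?_
          rw [if_neg h0]
          exact hi
  refine (Finset.sum_le_sum h3).trans ?_
  rw [Finset.sum_const, smul_eq_mul, mul_comm]
  refine Nat.mul_le_mul_left _ ?_
  refine (Finset.card_le_card (Finset.filter_subset _ _)).trans ?_
  rw [Fintype.card_piFinset_const]

/-- power mean on a subset -/
theorem pow_sum_le' {V : Type} [Fintype V] (k : ℕ) (hk : 1 ≤ k) (W : Finset V) (e : V → ℕ) :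
    (∑ w ∈ W, e w) ^ k ≤ (Fintype.card V) ^ (k - 1) * ∑ w ∈ W, e w ^ k := by
  classical
  have h := pow_sum_le k hk (fun w => if w ∈ W then e w else 0)
  have h1 : ∑ w, (if w ∈ W then e w else 0) = ∑ w ∈ W, e w := by
    rw [← Finset.sum_filter]; congr 1; ext w; simp
  have h2 : ∑ w, (if w ∈ W then e w else 0) ^ k = ∑ w ∈ W, e w ^ k := by
    have : ∀ w, (if w ∈ W then e w else 0) ^ k = if w ∈ W then e w ^ k else 0 := by
      intro w
      split_ifs
      · rfl
      · rw [zero_pow (by omega)]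
    simp_rw [this]
    rw [← Finset.sum_filter]; congr 1; ext w; simp
  rw [h1, h2] at h
  exact h

/-- The main bound. -/
theorem linear_bound {V : Type} [Fintype V] (G : SimpleGraph V) (s t j k : ℕ) (hs : s = k + j)
    (hk : 1 ≤ k) (hG : (completeBipartiteGraph (Fin s) (Fin t)).Free G) (B : Finset V)
    (J : V → Finset V) (hJ : ∀ v ∈ B, (J v).card = j) (hv : ∀ v ∈ B, v ∉ J v) :
    ∃ X : ℕ, ∑ v ∈ B, codeg G v (J v) ≤ 2 * s ^ 2 * Fintype.card V + X ∧
      X ^ k ≤ 2 * t * B.card ^ k * (Fintype.card V) ^ (k - 1) := by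
  classical
  subst hs
  let E : V → Finset V := fun w => B.filter (fun v => G.Adj v w ∧ ∀ u ∈ J v, G.Adj u w)
  let J' : V → Finset V := fun v => if v ∈ B then J v else ∅
  have hJ' : ∀ v, (J' v).card ≤ j := by
    intro v
    by_cases h : v ∈ B
    · simp only [J', if_pos h]; exact (hJ v h).le
    · simp only [J', if_neg h]; simp
  have hsum : ∑ v ∈ B, codeg G v (J v) = ∑ w, (E w).card := by
    simp_rw [codeg_eq, E, Finset.card_filter]
    exact Finset.sum_comm
  have h1 := heavy k j t hk B E (fun w => Finset.filter_subset _ _) J' hJ' (by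
    intro f hinj hout
    by_contra hlt
    push Not at hlt
    obtain ⟨T, hT, hTc⟩ := Finset.exists_subset_card_eq hlt.le
    have hTw : ∀ w ∈ T, ∀ i, f i ∈ E w := fun w hw => (Finset.mem_filter.1 (hT hw)).2
    obtain ⟨w0, hw0⟩ : (univ.filter (fun w => ∀ i, f i ∈ E w)).Nonempty :=
      Finset.card_pos.1 (by omega)
    have hB0 : f ⟨0, hk⟩ ∈ B := (Finset.mem_filter.1 ((Finset.mem_filter.1 hw0).2 ⟨0, hk⟩)).1
    have hJ0 : J' (f ⟨0, hk⟩) = J (f ⟨0, hk⟩) := by simp only [J', if_pos hB0]
    apply hG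
    rw [completeBipartiteGraph_isContained_iff]
    refine ⟨(univ.image f) ∪ J (f ⟨0, hk⟩), T, ?_, ?_, ?_⟩
    · rw [Finset.card_union_of_disjoint, Finset.card_image_of_injective _ hinj, Finset.card_univ,
        Fintype.card_fin, Fintype.card_fin, hJ _ hB0]
      rw [Finset.disjoint_left]
      intro x hx hx'
      obtain ⟨i, -, rfl⟩ := Finset.mem_image.1 hx
      apply hout i
      rw [hJ0]
      exact hx'
    · rw [hTc, Fintype.card_fin]
    · intro a ha b hb
      have ha' := Finset.mem_coe.1 ha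
      have hb' := Finset.mem_coe.1 hb
      rcases Finset.mem_union.1 ha' with h | h
      · obtain ⟨i, -, rfl⟩ := Finset.mem_image.1 h
        exact (Finset.mem_filter.1 (hTw b hb' i)).2.1
      · exact (Finset.mem_filter.1 (hTw b hb' ⟨0, hk⟩)).2.2 a h) (by
    intro w v hvw
    have hvB := (Finset.mem_filter.1 hvw).1
    simp only [J', if_pos hvB]
    exact hv v hvB)
  refine ⟨∑ w ∈ univ.filter (fun w => 2 * (k + j) ^ 2 ≤ (E w).card), (E w).card, ?_, ?_⟩
  · rw [hsum, ← Finset.sum_filter_add_sum_filter_not univ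
      (fun w => 2 * (k + j) ^ 2 ≤ (E w).card), add_comm]
    refine Nat.add_le_add_right ?_ _
    calc ∑ w ∈ univ.filter (fun w => ¬ 2 * (k + j) ^ 2 ≤ (E w).card), (E w).card
        ≤ ∑ _w ∈ univ.filter (fun w => ¬ 2 * (k + j) ^ 2 ≤ (E w).card), 2 * (k + j) ^ 2 := by
          apply Finset.sum_le_sum
          intro w hw
          have := (Finset.mem_filter.1 hw).2
          omega
      _ = (univ.filter (fun w => ¬ 2 * (k + j) ^ 2 ≤ (E w).card)).card * (2 * (k + j) ^ 2) := by
          rw [Finset.sum_const, smul_eq_mul]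
      _ ≤ Fintype.card V * (2 * (k + j) ^ 2) :=
          Nat.mul_le_mul_right _ (Finset.card_le_univ _)
      _ = 2 * (k + j) ^ 2 * Fintype.card V := by ring
  · refine (pow_sum_le' k hk _ (fun w => (E w).card)).trans ?_
    rw [mul_comm]
    exact Nat.mul_le_mul_right _ h1

theorem linear_real {V : Type} [Finite V] (G : SimpleGraph V) (s t j : ℕ) (hj : j < s)
    (hG : (completeBipartiteGraph (Fin s) (Fin t)).Free G) (B : Finset V)
    (J : V → Finset V) (hJ : ∀ v ∈ B, (J v).card = j) (hv : ∀ v ∈ B, v ∉ J v) :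
    ((∑ v ∈ B, codeg G v (J v) : ℕ) : ℝ) ≤ 2 * (s : ℝ) ^ 2 * Nat.card V +
      2 * t * B.card * (Nat.card V : ℝ) ^ (1 - 1 / ((s : ℝ) - j)) := by
  classical
  have := Fintype.ofFinite V
  obtain ⟨k, rfl⟩ : ∃ k, s = k + j := ⟨s - j, by omega⟩
  have hk : 1 ≤ k := by omega
  obtain ⟨X, hX1, hX2⟩ := linear_bound G (k + j) t j k rfl hk hG B J hJ hv
  rw [Nat.card_eq_fintype_card]
  set n := Fintype.card V with hn
  clear_value n
  have hsk : ((k + j : ℕ) : ℝ) - j = k := by rw [Nat.cast_add]; ring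
  rw [hsk]
  have hk0 : (0 : ℝ) < k := by exact_mod_cast (by omega : 0 < k)
  have h1 : ((∑ v ∈ B, codeg G v (J v) : ℕ) : ℝ) ≤ 2 * ((k + j : ℕ) : ℝ) ^ 2 * n + X := by
    exact_mod_cast hX1
  refine h1.trans (add_le_add le_rfl ?_)
  clear h1 hX1
  generalize B.card = b at hX2 ⊢
  clear hJ hv
  rcases Nat.eq_zero_or_pos X with h0 | h0
  · rw [h0, Nat.cast_zero]; positivity
  have ht1 : 1 ≤ t := by
    rcases Nat.eq_zero_or_pos t with ht | ht
    · subst ht
      have : 0 < X ^ k := by positivity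
      simp only [mul_zero, zero_mul, Nat.le_zero] at hX2
      omega
    · exact ht
  have ht2 : (1 : ℝ) ≤ 2 * t := by
    have : (1 : ℝ) ≤ t := by exact_mod_cast ht1
    linarith
  have hR : (X : ℝ) ^ k ≤ 2 * t * (b : ℝ) ^ k * (n : ℝ) ^ (k - 1) := by exact_mod_cast hX2
  have hx0 : (0 : ℝ) ≤ (X : ℝ) := by positivity
  have h2 : (X : ℝ) = ((X : ℝ) ^ k) ^ ((1 : ℝ) / k) := by
    rw [← Real.rpow_natCast, ← Real.rpow_mul hx0]
    rw [mul_one_div_cancel hk0.ne', Real.rpow_one]
  rw [h2]
  refine (Real.rpow_le_rpow (by positivity) hR (by positivity)).trans ?_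
  rw [Real.mul_rpow (by positivity) (by positivity), Real.mul_rpow (by positivity) (by positivity)]
  have e1 : (2 * (t : ℝ)) ^ ((1 : ℝ) / k) ≤ 2 * t := by
    calc (2 * (t : ℝ)) ^ ((1 : ℝ) / k) ≤ (2 * (t : ℝ)) ^ (1 : ℝ) := by
          apply Real.rpow_le_rpow_of_exponent_le ht2
          rw [div_le_one hk0]
          exact_mod_cast hk
      _ = _ := Real.rpow_one _
  have e2 : ((b : ℝ) ^ k) ^ ((1 : ℝ) / k) = b := by
    rw [← Real.rpow_natCast, ← Real.rpow_mul (by positivity), mul_one_div_cancel hk0.ne',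
      Real.rpow_one]
  have e3 : ((n : ℝ) ^ (k - 1)) ^ ((1 : ℝ) / k) = (n : ℝ) ^ (1 - 1 / (k : ℝ)) := by
    rw [← Real.rpow_natCast, ← Real.rpow_mul (by positivity)]
    congr 1
    rw [Nat.cast_sub hk]
    field_simp
    push_cast
    ring
  rw [e2, e3]
  refine mul_le_mul_of_nonneg_right ?_ (by positivity)
  exact mul_le_mul_of_nonneg_right e1 (by positivity)

end Pool.Agent.V11278.ZC
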