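import Pool.Agent.V11278.ZC.Core

set_option autoImplicit false

/-!
# Sums of codegrees in graphs without `K_{s,t}`: the theorem
-/

namespace Pool.Agent.V11278.ZC

open Finset SimpleGraph

/-- The number of common neighbours of the vertex `v` and all the vertices of `J`. -/
noncomputable def codeg {V : Type} (G : SimpleGraph V) (v : V) (J : Finset V) : ℕ :=
  {w : V | G.Adj v w ∧ ∀ u ∈ J, G.Adj u w}.ncard

theorem codeg_eq {V : Type} [Fintype V] (G : SimpleGraph V) (v : V) (J : Finset V)
    [DecidablePred fun w => G.Adj v w ∧ ∀ u ∈ J, G.Adj u w] :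
    codeg G v J = (univ.filter (fun w => G.Adj v w ∧ ∀ u ∈ J, G.Adj u w)).card := by
  rw [codeg, ← Set.ncard_coe_finset]
  congr 1
  ext w
  simp

theorem main_nat {V : Type} [Fintype V] (G : SimpleGraph V) (s t j k : ℕ) (hs : s = k + j)
    (hk : 1 ≤ k) (hG : (completeBipartiteGraph (Fin s) (Fin t)).Free G) (B : Finset V)
    (J : V → Finset V) (hJ : ∀ v ∈ B, (J v).card = j) (hv : ∀ v ∈ B, v ∉ J v) :
    (∑ v ∈ B, codeg G v (J v)) ^ k ≤ (t + s ^ 2) * (Fintype.card V) ^ (2 * k - 1) := by
  classical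
  subst hs
  let E : V → Finset V := fun w => B.filter (fun v => G.Adj v w ∧ ∀ u ∈ J v, G.Adj u w)
  let J' : V → Finset V := fun v => if v ∈ B then J v else ∅
  have hJ' : ∀ v, (J' v).card ≤ j := by
    intro v
    by_cases h : v ∈ B
    · simp only [J', if_pos h]; exact (hJ v h).le
    · simp only [J', if_neg h]; simp
  have hsum : ∑ v ∈ B, codeg G v (J v) = ∑ w, (E w).card := by
    simp_rw [codeg_eq, E, Finset.card_filter]
    exact Finset.sum_comm
  have h1 := sum_pow_le k j t hk E J' hJ' (by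
    intro f hinj hout
    by_contra hlt
    push Not at hlt
    obtain ⟨T, hT, hTc⟩ := Finset.exists_subset_card_eq hlt.le
    have hTw : ∀ w ∈ T, ∀ i, f i ∈ E w := fun w hw => (Finset.mem_filter.1 (hT hw)).2
    obtain ⟨w0, hw0⟩ : (univ.filter (fun w => ∀ i, f i ∈ E w)).Nonempty :=
      Finset.card_pos.1 (by omega)
    have hB0 : f ⟨0, hk⟩ ∈ B := (Finset.mem_filter.1 ((Finset.mem_filter.1 hw0).2 ⟨0, hk⟩)).1
    have hJ0 : J' (f ⟨0, hk⟩) = J (f ⟨0, hk⟩) := by simp only [J', if_pos hB0]
    apply hG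
    rw [completeBipartiteGraph_isContained_iff]
    refine ⟨(univ.image f) ∪ J (f ⟨0, hk⟩), T, ?_, ?_, ?_⟩
    · rw [Finset.card_union_of_disjoint, Finset.card_image_of_injective _ hinj, Finset.card_univ,
        Fintype.card_fin, Fintype.card_fin, hJ _ hB0]
      rw [Finset.disjoint_left]
      intro x hx hx'
      obtain ⟨i, -, rfl⟩ := Finset.mem_image.1 hx
      apply hout i
      rw [hJ0]
      exact hx'
    · rw [hTc, Fintype.card_fin]
    · intro a ha b hb
      have ha' := Finset.mem_coe.1 ha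
      have hb' := Finset.mem_coe.1 hb
      rcases Finset.mem_union.1 ha' with h | h
      · obtain ⟨i, -, rfl⟩ := Finset.mem_image.1 h
        exact (Finset.mem_filter.1 (hTw b hb' i)).2.1
      · exact (Finset.mem_filter.1 (hTw b hb' ⟨0, hk⟩)).2.2 a h) (by
    intro w v hvw
    have hvB := (Finset.mem_filter.1 hvw).1
    simp only [J', if_pos hvB]
    exact hv v hvB)
  rw [hsum]
  refine (pow_sum_le k hk (fun w => (E w).card)).trans ?_
  calc (Fintype.card V) ^ (k - 1) * ∑ w, (E w).card ^ k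
      ≤ (Fintype.card V) ^ (k - 1) * ((t + (k + j) ^ 2) * (Fintype.card V) ^ k) :=
        Nat.mul_le_mul_left _ h1
    _ = (t + (k + j) ^ 2) * (Fintype.card V) ^ (2 * k - 1) := by
        have : 2 * k - 1 = (k - 1) + k := by omega
        rw [this, pow_add]
        ring

/-- The sum of the codegrees, with real exponents. -/
theorem main_real {V : Type} [Finite V] (G : SimpleGraph V) (s t j : ℕ) (hj : j < s)
    (hG : (completeBipartiteGraph (Fin s) (Fin t)).Free G) (B : Finset V)
    (J : V → Finset V) (hJ : ∀ v ∈ B, (J v).card = j) (hv : ∀ v ∈ B, v ∉ J v) :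
    ((∑ v ∈ B, codeg G v (J v) : ℕ) : ℝ) ≤
      (t + (s : ℝ) ^ 2) * (Nat.card V : ℝ) ^ (2 - 1 / ((s : ℝ) - j)) := by
  classical
  have := Fintype.ofFinite V
  obtain ⟨k, rfl⟩ : ∃ k, s = k + j := ⟨s - j, by omega⟩
  have hk : 1 ≤ k := by omega
  have h := main_nat G (k + j) t j k rfl hk hG B J hJ hv
  rw [Nat.card_eq_fintype_card]
  set x := ∑ v ∈ B, codeg G v (J v) with hx
  set n := Fintype.card V with hn
  have hsk : ((k + j : ℕ) : ℝ) - j = k := by push_cast; ring
  rw [hsk]
  have hk0 : (0 : ℝ) < k := by exact_mod_cast (by omega : 0 < k)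
  have hC1 : (1 : ℝ) ≤ t + ((k + j : ℕ) : ℝ) ^ 2 := by
    have h1 : (1 : ℝ) ≤ ((k + j : ℕ) : ℝ) := by exact_mod_cast (by omega : 1 ≤ k + j)
    have h2 : (0 : ℝ) ≤ t := by positivity
    nlinarith
  have hR : ((x : ℕ) : ℝ) ^ k ≤ (t + ((k + j : ℕ) : ℝ) ^ 2) * (n : ℝ) ^ (2 * k - 1) := by
    exact_mod_cast h
  have hx0 : (0 : ℝ) ≤ (x : ℝ) := by positivity
  have h1 : (x : ℝ) = ((x : ℝ) ^ k) ^ ((1 : ℝ) / k) := by
    rw [← Real.rpow_natCast, ← Real.rpow_mul hx0]
    rw [mul_one_div_cancel hk0.ne', Real.rpow_one]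
  rw [h1]
  refine (Real.rpow_le_rpow (by positivity) hR (by positivity)).trans ?_
  rw [Real.mul_rpow (by positivity) (by positivity)]
  refine mul_le_mul ?_ ?_ (by positivity) (by positivity)
  · calc (t + ((k + j : ℕ) : ℝ) ^ 2) ^ ((1 : ℝ) / k) ≤ (t + ((k + j : ℕ) : ℝ) ^ 2) ^ (1 : ℝ) := by
          apply Real.rpow_le_rpow_of_exponent_le hC1
          rw [div_le_one hk0]
          exact_mod_cast hk
      _ = _ := Real.rpow_one _
  · rw [← Real.rpow_natCast, ← Real.rpow_mul (by positivity)]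
    apply le_of_eq
    congr 1
    have : ((2 * k - 1 : ℕ) : ℝ) = 2 * k - 1 := by
      rw [Nat.cast_sub (by omega)]; push_cast; ring
    rw [this]
    field_simp

/-- Vertices that share a positive proportion of their neighbourhood with `j` others. -/
theorem shared {V : Type} [Finite V] (G : SimpleGraph V) (s t j : ℕ) (hj : j < s)
    (hG : (completeBipartiteGraph (Fin s) (Fin t)).Free G) (δ : ℝ) (hδ : 0 < δ) (B : Finset V)
    (hB : ∀ v ∈ B, ∃ J : Finset V, J.card = j ∧ v ∉ J ∧
      δ * ({w : V | G.Adj v w}.ncard : ℝ) ≤ codeg G v J) :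
    ∑ v ∈ B, ({w : V | G.Adj v w}.ncard : ℝ) ≤
      (t + (s : ℝ) ^ 2) / δ * (Nat.card V : ℝ) ^ (2 - 1 / ((s : ℝ) - j)) := by
  classical
  let J : V → Finset V := fun v => if h : v ∈ B then (hB v h).choose else ∅
  have hJ : ∀ v (h : v ∈ B), J v = (hB v h).choose := by
    intro v h
    simp only [J, dif_pos h]
  have h1 := main_real G s t j hj hG B J (fun v h => by
    rw [hJ v h]; exact (hB v h).choose_spec.1) (fun v h => by
    rw [hJ v h]; exact (hB v h).choose_spec.2.1)
  have h2 : δ * ∑ v ∈ B, ({w : V | G.Adj v w}.ncard : ℝ) ≤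
      ((∑ v ∈ B, codeg G v (J v) : ℕ) : ℝ) := by
    rw [Finset.mul_sum]
    push_cast
    apply Finset.sum_le_sum
    intro v h
    rw [hJ v h]
    exact (hB v h).choose_spec.2.2
  have h3 := h2.trans h1
  rw [div_mul_eq_mul_div, le_div_iff₀ hδ, mul_comm _ δ]
  exact h3

/-- The join of a graph with `j` independent vertices. -/
def join {V : Type} (H : SimpleGraph V) (j : ℕ) : SimpleGraph (V ⊕ Fin j) where
  Adj a b := (∃ x y, a = Sum.inl x ∧ b = Sum.inl y ∧ H.Adj x y) ∨
    (∃ x i, a = Sum.inl x ∧ b = Sum.inr i) ∨ (∃ i y, a = Sum.inr i ∧ b = Sum.inl y)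
  symm := ⟨by
    rintro a b (⟨x, y, rfl, rfl, h⟩ | ⟨x, i, rfl, rfl⟩ | ⟨i, y, rfl, rfl⟩)
    · exact Or.inl ⟨y, x, rfl, rfl, h.symm⟩
    · exact Or.inr (Or.inr ⟨i, x, rfl, rfl⟩)
    · exact Or.inr (Or.inl ⟨y, i, rfl, rfl⟩)⟩
  loopless := ⟨by
    rintro a (⟨x, y, h1, h2, h⟩ | ⟨x, i, h1, h2⟩ | ⟨i, y, h1, h2⟩)
    · rw [h1] at h2
      exact h.ne (Sum.inl_injective h2)
    · rw [h1] at h2; exact Sum.inl_ne_inr h2
    · rw [h1] at h2; exact Sum.inr_ne_inl h2⟩

theorem join_ll {V : Type} (H : SimpleGraph V) (j : ℕ) (x y : V) :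
    (join H j).Adj (Sum.inl x) (Sum.inl y) ↔ H.Adj x y := by
  constructor
  · rintro (⟨a, b, h1, h2, h⟩ | ⟨a, i, h1, h2⟩ | ⟨i, a, h1, h2⟩)
    · rw [Sum.inl_injective h1, Sum.inl_injective h2]; exact h
    · exact absurd h2 Sum.inl_ne_inr
    · exact absurd h1 Sum.inl_ne_inr
  · intro h; exact Or.inl ⟨x, y, rfl, rfl, h⟩

theorem join_rr {V : Type} (H : SimpleGraph V) (j : ℕ) (x y : Fin j) :
    ¬ (join H j).Adj (Sum.inr x) (Sum.inr y) := by
  rintro (⟨a, b, h1, h2, h⟩ | ⟨a, i, h1, h2⟩ | ⟨i, a, h1, h2⟩)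
  · exact Sum.inr_ne_inl h1
  · exact Sum.inr_ne_inl h1
  · exact Sum.inr_ne_inl h2

theorem join_rl {V : Type} (H : SimpleGraph V) (j : ℕ) (i : Fin j) (y : V) :
    (join H j).Adj (Sum.inr i) (Sum.inl y) := Or.inr (Or.inr ⟨i, y, rfl, rfl⟩)

/-- `2 e(H)` is attained by the codegrees of the join. -/
theorem sharp {V : Type} [Fintype V] (H : SimpleGraph V) (s t j : ℕ) (hj : j < s) (hjt : j < t)
    (hH : (completeBipartiteGraph (Fin (s - j)) (Fin (t - j))).Free H) :
    (completeBipartiteGraph (Fin s) (Fin t)).Free (join H j) ∧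
    ∃ (B : Finset (V ⊕ Fin j)) (J : V ⊕ Fin j → Finset (V ⊕ Fin j)),
      (∀ v ∈ B, (J v).card = j ∧ v ∉ J v) ∧
      ∑ v ∈ B, codeg (join H j) v (J v) = 2 * H.edgeSet.ncard := by
  classical
  constructor
  · intro hcon
    rw [completeBipartiteGraph_isContained_iff] at hcon
    obtain ⟨S, T, hS, hT, hST⟩ := hcon
    rw [Fintype.card_fin] at hS hT
    have hS2 := Finset.card_toLeft_add_card_toRight (u := S)
    have hT2 := Finset.card_toLeft_add_card_toRight (u := T)
    have hSr : S.toRight.card ≤ j := (Finset.card_le_univ _).trans (by simp)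
    have hTr : T.toRight.card ≤ j := (Finset.card_le_univ _).trans (by simp)
    obtain ⟨S1, hS1, hS1c⟩ := Finset.exists_subset_card_eq (s := S.toLeft) (n := s - j) (by omega)
    obtain ⟨T1, hT1, hT1c⟩ := Finset.exists_subset_card_eq (s := T.toLeft) (n := t - j) (by omega)
    apply hH
    rw [completeBipartiteGraph_isContained_iff]
    refine ⟨S1, T1, by rw [hS1c, Fintype.card_fin], by rw [hT1c, Fintype.card_fin], ?_⟩
    intro a ha b hb
    have ha' := Finset.mem_toLeft.1 (hS1 (Finset.mem_coe.1 ha))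
    have hb' := Finset.mem_toLeft.1 (hT1 (Finset.mem_coe.1 hb))
    have := hST (Finset.mem_coe.2 ha') (Finset.mem_coe.2 hb')
    exact (join_ll H j a b).1 this
  · refine ⟨univ.image Sum.inl, fun _ => univ.image Sum.inr, ?_, ?_⟩
    · intro v hv
      obtain ⟨x, -, rfl⟩ := Finset.mem_image.1 hv
      constructor
      · rw [Finset.card_image_of_injective _ Sum.inr_injective]; simp
      · intro h
        obtain ⟨i, -, hi⟩ := Finset.mem_image.1 h
        exact Sum.inr_ne_inl hi
    · rw [Finset.sum_image (fun _ _ _ _ h => Sum.inl_injective h)]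
      have h1 : ∀ x : V, codeg (join H j) (Sum.inl x) (univ.image Sum.inr) = H.degree x := by
        intro x
        rw [codeg]
        have h2 : {w : V ⊕ Fin j | (join H j).Adj (Sum.inl x) w ∧
            ∀ u ∈ (univ.image Sum.inr : Finset (V ⊕ Fin j)), (join H j).Adj u w} =
            Sum.inl '' {y : V | H.Adj x y} ∨ j = 0 := by
          by_cases hj0 : j = 0
          · exact Or.inr hj0
          · left
            ext w
            constructor
            · rintro ⟨h3, h4⟩
              rcases w with y | i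
              · exact ⟨y, (join_ll H j x y).1 h3, rfl⟩
              · exact absurd (h4 (Sum.inr i) (Finset.mem_image.2 ⟨i, Finset.mem_univ _, rfl⟩))
                  (join_rr H j i i)
            · rintro ⟨y, hy, rfl⟩
              refine ⟨(join_ll H j x y).2 hy, ?_⟩
              intro u hu
              obtain ⟨i, -, rfl⟩ := Finset.mem_image.1 hu
              exact join_rl H j i y
        rcases h2 with h2 | h2
        · rw [h2, Set.ncard_image_of_injective _ Sum.inl_injective,
            ← SimpleGraph.card_neighborFinset_eq_degree, ← Set.ncard_coe_finset]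
          congr 1
          ext y
          simp
        · subst h2
          have h5 : {w : V ⊕ Fin 0 | (join H 0).Adj (Sum.inl x) w ∧
            ∀ u ∈ (univ.image Sum.inr : Finset (V ⊕ Fin 0)), (join H 0).Adj u w} =
            Sum.inl '' {y : V | H.Adj x y} := by
            ext w
            constructor
            · rintro ⟨h3, h4⟩
              rcases w with y | i
              · exact ⟨y, (join_ll H 0 x y).1 h3, rfl⟩
              · exact i.elim0
            · rintro ⟨y, hy, rfl⟩
              refine ⟨(join_ll H 0 x y).2 hy, ?_⟩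
              intro u hu
              obtain ⟨i, -, rfl⟩ := Finset.mem_image.1 hu
              exact i.elim0
          rw [h5, Set.ncard_image_of_injective _ Sum.inl_injective,
            ← SimpleGraph.card_neighborFinset_eq_degree, ← Set.ncard_coe_finset]
          congr 1
          ext y
          simp
      rw [Finset.sum_congr rfl (fun x _ => h1 x), SimpleGraph.sum_degrees_eq_twice_card_edges]
      congr 1
      rw [← Set.ncard_coe_finset]
      simp

end Pool.Agent.V11278.ZC
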