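import Pool.Agent.V11278.ZC.Heavy

set_option autoImplicit false

/-!
# Codegrees in graphs without `K_{s,t}`: pointwise bounds after the deletion of few vertices
-/

namespace Pool.Agent.V11278.ZC

open Finset SimpleGraph

theorem few_large {V : Type} [Finite V] (G : SimpleGraph V) (s t j : ℕ) (hj : j < s)
    (hG : (completeBipartiteGraph (Fin s) (Fin t)).Free G) (D : ℝ) (hD0 : 0 < D)
    (hD : 4 * t * (Nat.card V : ℝ) ^ (1 - 1 / ((s : ℝ) - j)) ≤ D) (B : Finset V)
    (hB : ∀ v ∈ B, ∃ J : Finset V, J.card = j ∧ v ∉ J ∧ D < codeg G v J) :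
    (B.card : ℝ) ≤ 4 * (s : ℝ) ^ 2 * Nat.card V / D := by
  classical
  let J : V → Finset V := fun v => if h : v ∈ B then (hB v h).choose else ∅
  have hJ : ∀ v (h : v ∈ B), J v = (hB v h).choose := by
    intro v h
    simp only [J, dif_pos h]
  have h1 := linear_real G s t j hj hG B J (fun v h => by
    rw [hJ v h]; exact (hB v h).choose_spec.1) (fun v h => by
    rw [hJ v h]; exact (hB v h).choose_spec.2.1)
  have h2 : (B.card : ℝ) * D ≤ ((∑ v ∈ B, codeg G v (J v) : ℕ) : ℝ) := by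
    rw [Nat.cast_sum, ← nsmul_eq_mul, ← Finset.sum_const]
    apply Finset.sum_le_sum
    intro v h
    rw [hJ v h]
    exact (hB v h).choose_spec.2.2.le
  have h3 : 2 * t * (B.card : ℝ) * (Nat.card V : ℝ) ^ (1 - 1 / ((s : ℝ) - j)) ≤
      (B.card : ℝ) * D / 2 := by
    have := mul_le_mul_of_nonneg_left hD (Nat.cast_nonneg (α := ℝ) B.card)
    linarith
  rw [le_div_iff₀ hD0]
  linarith

theorem codeg_lt {V : Type} [Finite V] (G : SimpleGraph V) (s t : ℕ) (hs : 1 ≤ s)
    (hG : (completeBipartiteGraph (Fin s) (Fin t)).Free G) (v : V) (J : Finset V)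
    (hJ : J.card = s - 1) (hv : v ∉ J) : codeg G v J < t := by
  classical
  have := Fintype.ofFinite V
  by_contra hlt
  rw [not_lt, codeg_eq] at hlt
  obtain ⟨T, hT, hTc⟩ := Finset.exists_subset_card_eq hlt
  apply hG
  rw [completeBipartiteGraph_isContained_iff]
  refine ⟨insert v J, T, ?_, ?_, ?_⟩
  · rw [Finset.card_insert_of_notMem hv, hJ, Fintype.card_fin]; omega
  · rw [hTc, Fintype.card_fin]
  · intro a ha b hb
    have h1 := (Finset.mem_filter.1 (hT (Finset.mem_coe.1 hb))).2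
    rcases Finset.mem_insert.1 (Finset.mem_coe.1 ha) with h | h
    · rw [h]; exact h1.1
    · exact h1.2 a h

theorem codeg_empty {V : Type} (G : SimpleGraph V) (v : V) :
    codeg G v ∅ = {w : V | G.Adj v w}.ncard := by
  rw [codeg]
  congr 1
  ext w
  simp

/-- A set of at most `s³ √n` vertices outside of which all codegrees are small. -/
theorem exists_set {V : Type} [Finite V] (G : SimpleGraph V) (s t : ℕ) (hs : 2 ≤ s) (ht : 1 ≤ t)
    (hG : (completeBipartiteGraph (Fin s) (Fin t)).Free G) :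
    ∃ B : Finset V, (B.card : ℝ) ≤ (s : ℝ) ^ 3 * (Nat.card V : ℝ) ^ ((1 : ℝ) / 2) ∧
      ((∑ v ∈ B, {w : V | G.Adj v w}.ncard : ℕ) : ℝ) ≤ 2 * (s : ℝ) ^ 2 * Nat.card V +
        2 * t * (s : ℝ) ^ 3 * (Nat.card V : ℝ) ^ (3 / 2 - 1 / (s : ℝ)) ∧
      ∀ v, v ∉ B → ∀ J : Finset V, v ∉ J → J.card < s →
        (codeg G v J : ℝ) ≤ 4 * t * (Nat.card V : ℝ) ^ (1 - 1 / ((s : ℝ) - J.card)) := by
  classical
  have := Fintype.ofFinite V
  rcases Nat.eq_zero_or_pos (Nat.card V) with h0 | h0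
  · have hemp : IsEmpty V := by
      rw [Nat.card_eq_fintype_card] at h0
      exact Fintype.card_eq_zero_iff.1 h0
    refine ⟨∅, ?_, ?_, fun v => (hemp.false v).elim⟩
    · rw [Finset.card_empty, Nat.cast_zero]; positivity
    · rw [Finset.sum_empty, Nat.cast_zero]; positivity
  have hn1 : (1 : ℝ) ≤ Nat.card V := by exact_mod_cast h0
  have hn0 : (0 : ℝ) < Nat.card V := by linarith
  have ht1 : (1 : ℝ) ≤ t := by exact_mod_cast ht
  set N : ℝ := (Nat.card V : ℝ) with hN
  let D : ℕ → ℝ := fun j => 4 * t * N ^ (1 - 1 / ((s : ℝ) - j))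
  have hD0 : ∀ j, 0 < D j := by
    intro j
    have : (0 : ℝ) < N ^ (1 - 1 / ((s : ℝ) - j)) := Real.rpow_pos_of_pos hn0 _
    have : (0 : ℝ) < t := by linarith
    show 0 < 4 * (t : ℝ) * N ^ (1 - 1 / ((s : ℝ) - j))
    positivity
  let Bj : ℕ → Finset V := fun j =>
    univ.filter (fun v => ∃ J : Finset V, J.card = j ∧ v ∉ J ∧ D j < codeg G v J)
  have hBj : ∀ j, j < s → ((Bj j).card : ℝ) ≤ 4 * (s : ℝ) ^ 2 * N / D j := by
    intro j hj
    exact few_large G s t j hj hG (D j) (hD0 j) le_rfl (Bj j)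
      (fun v hv => (Finset.mem_filter.1 hv).2)
  have hBj2 : ∀ j ∈ Finset.range (s - 1), ((Bj j).card : ℝ) ≤ (s : ℝ) ^ 2 * N ^ ((1 : ℝ) / 2) := by
    intro j hj
    have hj' := Finset.mem_range.1 hj
    refine (hBj j (by omega)).trans ?_
    rw [div_le_iff₀ (hD0 j)]
    have hsj : (2 : ℝ) ≤ (s : ℝ) - j := by
      have : ((j + 2 : ℕ) : ℝ) ≤ s := by exact_mod_cast (by omega : j + 2 ≤ s)
      push_cast at this
      linarith
    have e1 : N ≤ N ^ ((1 : ℝ) / 2) * N ^ (1 - 1 / ((s : ℝ) - j)) := by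
      rw [← Real.rpow_add hn0]
      calc N = N ^ (1 : ℝ) := (Real.rpow_one _).symm
        _ ≤ _ := by
          apply Real.rpow_le_rpow_of_exponent_le hn1
          have : 1 / ((s : ℝ) - j) ≤ 1 / 2 := by
            apply one_div_le_one_div_of_le (by norm_num) hsj
          linarith
    have e2 : (0 : ℝ) ≤ (s : ℝ) ^ 2 := by positivity
    show 4 * (s : ℝ) ^ 2 * N ≤ (s : ℝ) ^ 2 * N ^ ((1 : ℝ) / 2) *
      (4 * t * N ^ (1 - 1 / ((s : ℝ) - j)))
    have e3 : (0 : ℝ) ≤ N ^ ((1 : ℝ) / 2) * N ^ (1 - 1 / ((s : ℝ) - j)) := by positivity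
    calc 4 * (s : ℝ) ^ 2 * N ≤
          4 * (s : ℝ) ^ 2 * (N ^ ((1 : ℝ) / 2) * N ^ (1 - 1 / ((s : ℝ) - j))) := by
          apply mul_le_mul_of_nonneg_left e1; positivity
      _ ≤ 4 * (s : ℝ) ^ 2 * (N ^ ((1 : ℝ) / 2) * N ^ (1 - 1 / ((s : ℝ) - j))) * t := by
          apply le_mul_of_one_le_right _ ht1
          positivity
      _ = _ := by ring
  set B : Finset V := (Finset.range (s - 1)).biUnion Bj with hBdef
  have hBc : (B.card : ℝ) ≤ (s : ℝ) ^ 3 * N ^ ((1 : ℝ) / 2) := by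
    have h1 : (B.card : ℝ) ≤ ∑ j ∈ Finset.range (s - 1), ((Bj j).card : ℝ) := by
      exact_mod_cast Finset.card_biUnion_le
    refine h1.trans ((Finset.sum_le_sum hBj2).trans ?_)
    rw [Finset.sum_const, Finset.card_range, nsmul_eq_mul]
    have h2 : ((s - 1 : ℕ) : ℝ) ≤ s := by exact_mod_cast Nat.sub_le _ _
    calc ((s - 1 : ℕ) : ℝ) * ((s : ℝ) ^ 2 * N ^ ((1 : ℝ) / 2)) ≤
          s * ((s : ℝ) ^ 2 * N ^ ((1 : ℝ) / 2)) := by
          apply mul_le_mul_of_nonneg_right h2; positivity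
      _ = _ := by ring
  refine ⟨B, hBc, ?_, ?_⟩
  · have h1 := linear_real G s t 0 (by omega) hG B (fun _ => ∅) (fun _ _ => Finset.card_empty)
      (fun _ _ => Finset.notMem_empty _)
    simp_rw [codeg_empty] at h1
    refine h1.trans (add_le_add le_rfl ?_)
    rw [Nat.cast_zero, sub_zero]
    have e4 : N ^ (3 / 2 - 1 / (s : ℝ)) = N ^ ((1 : ℝ) / 2) * N ^ (1 - 1 / (s : ℝ)) := by
      rw [← Real.rpow_add hn0]
      congr 1
      ring
    rw [e4]
    calc 2 * (t : ℝ) * B.card * N ^ (1 - 1 / (s : ℝ)) =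
          2 * t * N ^ (1 - 1 / (s : ℝ)) * B.card := by ring
      _ ≤ 2 * t * N ^ (1 - 1 / (s : ℝ)) * ((s : ℝ) ^ 3 * N ^ ((1 : ℝ) / 2)) := by
          apply mul_le_mul_of_nonneg_left hBc; positivity
      _ = _ := by ring
  · intro v hv J hvJ hJs
    by_cases hjs : J.card < s - 1
    · by_contra hcon
      rw [not_le] at hcon
      apply hv
      rw [hBdef, Finset.mem_biUnion]
      exact ⟨J.card, Finset.mem_range.2 hjs, Finset.mem_filter.2
        ⟨Finset.mem_univ _, J, rfl, hvJ, hcon⟩⟩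
    · have hJc : J.card = s - 1 := by omega
      have h1 := codeg_lt G s t (by omega) hG v J hJc hvJ
      have h2 : (codeg G v J : ℝ) ≤ t := by exact_mod_cast h1.le
      have h3 : (1 : ℝ) - 1 / ((s : ℝ) - J.card) = 0 := by
        rw [hJc, Nat.cast_sub (by omega)]
        push_cast
        norm_num
      rw [h3, Real.rpow_zero]
      linarith

/-- The number of common neighbours of the vertices of a set. -/
noncomputable def common {V : Type} (G : SimpleGraph V) (S : Finset V) : ℕ :=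
  {w : V | ∀ v ∈ S, G.Adj v w}.ncard

/-- the graph without the edges that meet `B` -/
def del {V : Type} (G : SimpleGraph V) (B : Finset V) : SimpleGraph V where
  Adj a b := G.Adj a b ∧ a ∉ B ∧ b ∉ B
  symm := ⟨fun _ _ h => ⟨h.1.symm, h.2.2, h.2.1⟩⟩
  loopless := ⟨fun _ h => h.1.ne rfl⟩

theorem edges_del {V : Type} [Finite V] (G : SimpleGraph V) (B : Finset V) :
    G.edgeSet.ncard ≤ (del G B).edgeSet.ncard + ∑ v ∈ B, {w : V | G.Adj v w}.ncard := by
  classical
  have := Fintype.ofFinite V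
  have hsub : G.edgeSet ⊆ (del G B).edgeSet ∪
      ((B.biUnion (fun v => (univ.filter (fun w => G.Adj v w)).image (fun w => s(v, w))) :
        Finset (Sym2 V)) : Set (Sym2 V)) := by
    intro e
    induction e using Sym2.ind with
    | _ a b =>
      intro h
      rw [SimpleGraph.mem_edgeSet] at h
      by_cases ha : a ∈ B
      · right
        rw [Finset.mem_coe, Finset.mem_biUnion]
        exact ⟨a, ha, Finset.mem_image.2 ⟨b, Finset.mem_filter.2 ⟨Finset.mem_univ _, h⟩, rfl⟩⟩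
      · by_cases hb : b ∈ B
        · right
          rw [Finset.mem_coe, Finset.mem_biUnion]
          exact ⟨b, hb, Finset.mem_image.2 ⟨a, Finset.mem_filter.2 ⟨Finset.mem_univ _, h.symm⟩,
            Sym2.eq_swap⟩⟩
        · left
          rw [SimpleGraph.mem_edgeSet]
          exact ⟨h, ha, hb⟩
  refine (Set.ncard_le_ncard hsub (Set.toFinite _)).trans ?_
  refine (Set.ncard_union_le _ _).trans (Nat.add_le_add_left ?_ _)
  rw [Set.ncard_coe_finset]
  refine Finset.card_biUnion_le.trans (Finset.sum_le_sum ?_)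
  intro v _
  refine Finset.card_image_le.trans ?_
  rw [← Set.ncard_coe_finset]
  apply le_of_eq
  congr 1
  ext w
  simp

/-- **Regularisation.** -/
theorem regular {V : Type} [Finite V] (G : SimpleGraph V) (s t : ℕ) (hs : 2 ≤ s) (ht : 1 ≤ t)
    (hG : (completeBipartiteGraph (Fin s) (Fin t)).Free G) :
    ∃ G' : SimpleGraph V, G' ≤ G ∧
      (G.edgeSet.ncard : ℝ) ≤ G'.edgeSet.ncard + 2 * (s : ℝ) ^ 2 * Nat.card V +
        2 * t * (s : ℝ) ^ 3 * (Nat.card V : ℝ) ^ (3 / 2 - 1 / (s : ℝ)) ∧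
      ∀ S : Finset V, 1 ≤ S.card → S.card ≤ s →
        (common G' S : ℝ) ≤ 4 * t * (Nat.card V : ℝ) ^ (1 - 1 / ((s : ℝ) - S.card + 1)) := by
  classical
  have := Fintype.ofFinite V
  obtain ⟨B, -, hB1, hB2⟩ := exists_set G s t hs ht hG
  refine ⟨del G B, fun a b h => h.1, ?_, ?_⟩
  · have h1 : (G.edgeSet.ncard : ℝ) ≤ (del G B).edgeSet.ncard +
        ((∑ v ∈ B, {w : V | G.Adj v w}.ncard : ℕ) : ℝ) := by
      exact_mod_cast edges_del G B
    linarith
  · intro S hS1 hSs
    obtain ⟨v, hv⟩ : S.Nonempty := Finset.card_pos.1 hS1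
    have hpos : (0 : ℝ) ≤ 4 * t * (Nat.card V : ℝ) ^ (1 - 1 / ((s : ℝ) - S.card + 1)) := by
      apply mul_nonneg (by positivity)
      exact Real.rpow_nonneg (Nat.cast_nonneg _) _
    by_cases hvB : v ∈ B
    · have : {w : V | ∀ v ∈ S, (del G B).Adj v w} = ∅ := by
        rw [Set.eq_empty_iff_forall_notMem]
        intro w hw
        exact (hw v hv).2.1 hvB
      rw [common, this, Set.ncard_empty, Nat.cast_zero]
      exact hpos
    · have hcard : (S.erase v).card = S.card - 1 := Finset.card_erase_of_mem hv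
      have h1 := hB2 v hvB (S.erase v) (Finset.notMem_erase _ _) (by omega)
      have h2 : common (del G B) S ≤ codeg G v (S.erase v) := by
        rw [common, codeg]
        apply Set.ncard_le_ncard _ (Set.toFinite _)
        intro w hw
        exact ⟨(hw v hv).1, fun u hu => (hw u (Finset.mem_of_mem_erase hu)).1⟩
      have h3 : (s : ℝ) - (S.erase v).card = (s : ℝ) - S.card + 1 := by
        rw [hcard, Nat.cast_sub hS1]
        push_cast
        ring
      rw [h3] at h1
      refine le_trans ?_ h1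
      exact_mod_cast h2

end Pool.Agent.V11278.ZC
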